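import Pool.Agent.H.MP_895317_an.B

namespace Pool.Agent.Results.MP_895317_an.Yes

open Metric Set

/-- The Hardy space, as square summable Taylor coefficient sequences. -/
noncomputable abbrev H2 := lp (fun _ : ℕ => ℂ) 2

/-- Bounded operators on the Hardy space. -/
noncomputable abbrev Op := H2 →L[ℂ] H2

/-- The power series whose coefficients are those of `f`, shifted backwards `j` times. -/
noncomputable def ser (j : ℕ) (f : H2) (z : ℂ) : ℂ := ∑' k, f (k + j) * z ^ k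

/-- `T` is `γ` times the backward shift plus multiplication by `φ`. -/
def IsToeplitz (γ : ℂ) (φ : ℂ → ℂ) (T : Op) : Prop :=
  ∀ f, ∀ z ∈ ball (0 : ℂ) 1, ser 0 (T f) z = γ * ser 1 f z + φ z * ser 0 f z

def Hypercyclic {E : Type} [NormedAddCommGroup E] [NormedSpace ℂ E] (T : E →L[ℂ] E) : Prop :=
  ∃ x, DenseRange fun n : ℕ => (T ^ n) x

def spec {E : Type} [NormedAddCommGroup E] [NormedSpace ℂ E] (T : E →L[ℂ] E) : Set ℂ :=
  spectrum ℂ T

theorem result (γ : ℂ) (φ : ℂ → ℂ) (hφ : DifferentiableOn ℂ φ (ball 0 1))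
    (_hb : ∃ M, ∀ z ∈ ball (0 : ℂ) 1, ‖φ z‖ ≤ M) (T : Op) (hT : IsToeplitz γ φ T)
    (hc : Hypercyclic T) :
    ball 0 1 ∩ spec T = ball 0 1 ∩ ((fun z => γ / z + φ z) '' (ball 0 1 \ {0}))ᶜ ∧
      (ball 0 1 ∩ spec T).Nonempty :=
  Pool.Agent.H.MP_895317_an.main γ φ hφ T hT hc

end Pool.Agent.Results.MP_895317_an.Yes
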